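import Pool.Agent.H3Z.IdealDep

namespace Pool.Agent.Results.MP_66b893_lc.AIdealDependence

open Pool.Agent.H3Z

/-- If there is a measurable cardinal, then there is a countable transitive model of ZFC with an
uncountable regular cardinal `κ` and two `κ`-complete ideals `I`, `J` on `κ` containing the
bounded sets such that Choose has a winning strategy in `U(κ, I, ω)` but none in `U(κ, J, ω)`. -/
theorem result (h : ∃ μ : Cardinal.{0}, IsMeasurableCardinal μ) :
    ∃ W : Set ZFSet.{0}, CohenE.CTM W ∧ ∃ κ I J : ZFSet.{0},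
      RegUnc W κ ∧ IsIdeal W κ I ∧ IsIdeal W κ J ∧
      WinsIdeal W κ I ZFSet.omega ∧ ¬ WinsIdeal W κ J ZFSet.omega :=
  ideal_dependence h

end Pool.Agent.Results.MP_66b893_lc.AIdealDependence
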